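import Mathlib

/-! Almost orthogonal functions force many patterns (helper790). -/

set_option autoImplicit false

open Finset

namespace Pool.Agent.N790.LP

/-- If the functions `χ a` of a pattern, `a ∈ A`, with values `±1` are almost orthogonal along the patterns of
`1, ..., x` then at least `|A|` patterns occur at least `δ x` times. -/
theorem many_patterns {A S : Type} [Fintype A] [DecidableEq A] [Fintype S] [DecidableEq S] (χ : A → S → ℝ)
    (hχ : ∀ a s, χ a s * χ a s = 1) (x : ℕ) (hx : 0 < x) (pat : ℕ → S) (δ : ℝ) (hδ0 : 0 ≤ δ)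
    (hδ : δ * (Fintype.card S * Fintype.card A) ≤ 1 / 2)
    (hW : ∑ p ∈ (univ : Finset A).offDiag, |∑ n ∈ Icc 1 x, χ p.1 (pat n) * χ p.2 (pat n)| ≤ (x : ℝ) / 4) :
    Fintype.card A ≤ (univ.filter (fun s : S => δ * x ≤
      (((Icc 1 x).filter (fun n => pat n = s)).card : ℝ))).card := by
  classical
  by_contra hlt
  push Not at hlt
  set Good : Finset S := univ.filter (fun s : S => δ * x ≤
      (((Icc 1 x).filter (fun n => pat n = s)).card : ℝ)) with hGood
  let T : (A → ℝ) →ₗ[ℝ] (Good → ℝ) := LinearMap.pi (fun s => ∑ a, (χ a s.1) • (LinearMap.proj a : (A → ℝ) →ₗ[ℝ] ℝ))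
  have hker : LinearMap.ker T ≠ ⊥ := LinearMap.ker_ne_bot_of_finrank_lt (by
    rw [Module.finrank_fintype_fun_eq_card, Module.finrank_fintype_fun_eq_card, Fintype.card_coe]
    exact hlt)
  obtain ⟨v, hvT, hv0⟩ := Submodule.exists_mem_ne_zero_of_ne_bot hker
  set f : S → ℝ := fun s => ∑ a, v a * χ a s with hf
  have hf0 : ∀ s ∈ Good, f s = 0 := by
    intro s hs
    have h1 : T v ⟨s, hs⟩ = 0 := by
      rw [LinearMap.mem_ker] at hvT
      rw [hvT]
      rfl
    have h2 : T v ⟨s, hs⟩ = f s := by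
      show (∑ a, (χ a s) • (LinearMap.proj a : (A → ℝ) →ₗ[ℝ] ℝ)) v = _
      rw [LinearMap.sum_apply]
      refine sum_congr rfl fun a _ => ?_
      show χ a s * v a = v a * χ a s
      ring
    rw [← h2, h1]
  obtain ⟨q, hq⟩ : ∃ q : ℝ, q = ∑ a, v a ^ 2 := ⟨_, rfl⟩
  have hvq : ∀ a, v a ^ 2 ≤ q := by
    intro a
    rw [hq]
    exact single_le_sum (f := fun a => v a ^ 2) (fun _ _ => sq_nonneg _) (mem_univ a)
  have hq0 : 0 < q := by
    obtain ⟨a, ha⟩ : ∃ a, v a ≠ 0 := by
      by_contra hcon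
      push Not at hcon
      exact hv0 (funext hcon)
    exact lt_of_lt_of_le (by positivity) (hvq a)
  have hfle : ∀ s, f s ^ 2 ≤ Fintype.card A * q := by
    intro s
    have h1 := sum_mul_sq_le_sq_mul_sq univ v (fun a => χ a s)
    have h2 : ∑ a, (χ a s) ^ 2 = (Fintype.card A : ℝ) := by
      rw [← card_univ, ← nsmul_one, ← sum_const]
      refine sum_congr rfl fun a _ => ?_
      rw [sq]
      exact hχ a s
    rw [h2, ← hq] at h1
    show (∑ a, v a * χ a s) ^ 2 ≤ _
    linarith
  have hx0 : (0 : ℝ) < x := by exact_mod_cast hx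
  -- upper bound
  have hQ1 : ∑ n ∈ Icc 1 x, f (pat n) ^ 2 ≤ q * (x / 2) := by
    have h1 : ∑ n ∈ Icc 1 x, f (pat n) ^ 2 = ∑ s : S, ∑ n ∈ (Icc 1 x).filter (fun n => pat n = s), f (pat n) ^ 2 :=
      (sum_fiberwise (Icc 1 x) pat (fun n => f (pat n) ^ 2)).symm
    rw [h1]
    have h2 : ∀ s ∈ (univ : Finset S), ∑ n ∈ (Icc 1 x).filter (fun n => pat n = s), f (pat n) ^ 2 ≤
        δ * x * (Fintype.card A * q) := by
      intro s _
      have h3 : ∑ n ∈ (Icc 1 x).filter (fun n => pat n = s), f (pat n) ^ 2 =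
          (((Icc 1 x).filter (fun n => pat n = s)).card : ℝ) * f s ^ 2 := by
        rw [← nsmul_eq_mul, ← sum_const]
        refine sum_congr rfl fun n hn => ?_
        rw [(mem_filter.1 hn).2]
      rw [h3]
      by_cases hs : s ∈ Good
      · rw [hf0 s hs]
        have : (0 : ℝ) ≤ δ * x * (Fintype.card A * q) := by positivity
        simpa using this
      · have h4 : (((Icc 1 x).filter (fun n => pat n = s)).card : ℝ) ≤ δ * x := by
          rw [hGood, mem_filter, not_and] at hs
          exact (not_le.1 (hs (mem_univ s))).le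
        exact mul_le_mul h4 (hfle s) (sq_nonneg _) (le_trans (Nat.cast_nonneg _) h4)
    refine (sum_le_sum h2).trans ?_
    rw [sum_const, card_univ, nsmul_eq_mul]
    calc (Fintype.card S : ℝ) * (δ * x * (Fintype.card A * q)) =
        (δ * (Fintype.card S * Fintype.card A)) * (x * q) := by ring
      _ ≤ 1 / 2 * (x * q) := mul_le_mul_of_nonneg_right hδ (by positivity)
      _ = q * (x / 2) := by ring
  -- lower bound
  have hQ2 : q * (3 * x / 4) ≤ ∑ n ∈ Icc 1 x, f (pat n) ^ 2 := by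
    have h1 : ∑ n ∈ Icc 1 x, f (pat n) ^ 2 = ∑ p ∈ (univ : Finset A) ×ˢ univ,
        v p.1 * v p.2 * ∑ n ∈ Icc 1 x, χ p.1 (pat n) * χ p.2 (pat n) := by
      simp only [mul_sum]
      rw [sum_comm]
      refine sum_congr rfl fun n _ => ?_
      rw [hf, sq]
      simp only
      rw [sum_mul_sum, ← sum_product']
      refine sum_congr rfl fun p _ => ?_
      ring
    have h2 : ((univ : Finset A) ×ˢ univ) = univ.diag ∪ univ.offDiag := (diag_union_offDiag univ).symm
    rw [h1, h2, sum_union (disjoint_diag_offDiag _), sum_diag]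
    have h3 : ∑ a : A, v a * v a * ∑ n ∈ Icc 1 x, χ a (pat n) * χ a (pat n) = q * x := by
      rw [hq, sum_mul]
      refine sum_congr rfl fun a _ => ?_
      have : ∑ n ∈ Icc 1 x, χ a (pat n) * χ a (pat n) = (x : ℝ) := by
        rw [sum_congr rfl (fun n _ => hχ a (pat n)), sum_const, Nat.card_Icc]
        simp
      rw [this]
      ring
    have h4 : ∀ p ∈ (univ : Finset A).offDiag,
        -(q * |∑ n ∈ Icc 1 x, χ p.1 (pat n) * χ p.2 (pat n)|) ≤
          v p.1 * v p.2 * ∑ n ∈ Icc 1 x, χ p.1 (pat n) * χ p.2 (pat n) := by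
      intro p _
      have e1 : |v p.1 * v p.2| ≤ q := by
        have i1 := hvq p.1
        have i2 := hvq p.2
        rw [abs_le]
        constructor <;> nlinarith [sq_nonneg (v p.1 + v p.2), sq_nonneg (v p.1 - v p.2)]
      have e2 := neg_abs_le (v p.1 * v p.2 * ∑ n ∈ Icc 1 x, χ p.1 (pat n) * χ p.2 (pat n))
      rw [abs_mul] at e2
      have e3 := mul_le_mul_of_nonneg_right e1 (abs_nonneg (∑ n ∈ Icc 1 x, χ p.1 (pat n) * χ p.2 (pat n)))
      linarith
    have h5 := sum_le_sum h4
    rw [sum_neg_distrib, ← mul_sum] at h5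
    rw [h3]
    have h6 := mul_le_mul_of_nonneg_left hW hq0.le
    linarith
  have : q * (3 * x / 4) ≤ q * (x / 2) := hQ2.trans hQ1
  have h7 := le_of_mul_le_mul_left this hq0
  linarith

end Pool.Agent.N790.LP
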