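import Mathlib
import Pool.Agent.N790.LP.Lin
import Pool.Agent.N675.A3.Four
import Pool.Agent.N675.A3.T3
import Pool.Agent.N123.A3.T1
import Pool.Agent.N368.A3.T2

/-! Sign patterns of the Liouville function along almost all dilates (helper790). -/

set_option autoImplicit false

open Finset

namespace Pool.Agent.N790.LP

open Pool.Agent.N675 Pool.Agent.N675.A3

lemma lf_sq (m : ℕ) : lf m * lf m = 1 := by
  rcases lf_or m with h | h <;> rw [h] <;> norm_num

lemma gen (b₀ b₁ b₂ : ℕ) (h01 : b₀ ≠ b₁) (h12 : b₁ ≠ b₂) (h02 : b₀ ≠ b₂) (c₀ c₁ c₂ : Bool)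
    (hc : ¬ (c₀ = false ∧ c₁ = false ∧ c₂ = false)) :
    Sm (fun x d => ∑ n ∈ Icc 1 x, ph c₀ (n + b₀ * d) * ph c₁ (n + b₁ * d) * ph c₂ (n + b₂ * d)) :=
  Sm_gen Pool.Agent.N123.A3.t1 Pool.Agent.N368.A3.t2 Pool.Agent.N675.A3.t3 b₀ b₁ b₂ h01 h12 h02 c₀ c₁ c₂ hc

lemma one (i : ℕ) : Sm (fun x d => ∑ n ∈ Icc 1 x, lf (n + i * d)) := by
  have := gen i (i + 1) (i + 2) (by omega) (by omega) (by omega) true false false (by simp)
  simpa only [ph, Bool.false_eq_true, if_false, if_true, mul_one] using this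

lemma two (i j : ℕ) (hij : i ≠ j) : Sm (fun x d => ∑ n ∈ Icc 1 x, lf (n + i * d) * lf (n + j * d)) := by
  have := gen i j (i + j + 1) hij (by omega) (by omega) true true false (by simp)
  simpa only [ph, Bool.false_eq_true, if_false, if_true, mul_one] using this

lemma three (i j l : ℕ) (h01 : i ≠ j) (h12 : j ≠ l) (h02 : i ≠ l) :
    Sm (fun x d => ∑ n ∈ Icc 1 x, lf (n + i * d) * lf (n + j * d) * lf (n + l * d)) := by
  have := gen i j l h01 h12 h02 true true true (by simp)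
  simpa only [ph, if_true] using this

/-- the signs of `λ(n), λ(n + d), ..., λ(n + k d)` -/
def pat (k d n : ℕ) : Fin (k + 1) → ℤˣ := fun i => (-1) ^ ArithmeticFunction.cardFactors (n + (i : ℕ) * d)

/-- the test functions `s i` and `s 0 * s i` -/
noncomputable def chi {k : ℕ} (a : Bool × Fin (k + 1)) (s : Fin (k + 1) → ℤˣ) : ℝ :=
  if a.1 then ((s 0 : ℤ) : ℝ) * ((s a.2 : ℤ) : ℝ) else ((s a.2 : ℤ) : ℝ)

lemma unit_sq (u : ℤˣ) : ((u : ℤ) : ℝ) * ((u : ℤ) : ℝ) = 1 := by
  rcases Int.units_eq_one_or u with h | h <;> rw [h] <;> norm_num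

lemma chi_sq {k : ℕ} (a : Bool × Fin (k + 1)) (s : Fin (k + 1) → ℤˣ) : chi a s * chi a s = 1 := by
  unfold chi
  split_ifs
  · have h1 := unit_sq (s 0)
    have h2 := unit_sq (s a.2)
    calc _ = (((s 0 : ℤ) : ℝ) * ((s 0 : ℤ) : ℝ)) * (((s a.2 : ℤ) : ℝ) * ((s a.2 : ℤ) : ℝ)) := by ring
      _ = 1 := by rw [h1, h2, mul_one]
  · exact unit_sq _

lemma pat_val (k d n : ℕ) (i : Fin (k + 1)) : ((pat k d n i : ℤ) : ℝ) = lf (n + (i : ℕ) * d) := by
  unfold pat lf
  push_cast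
  rfl

lemma chi_false {k : ℕ} (i : Fin (k + 1)) (d n : ℕ) : chi (false, i) (pat k d n) = lf (n + (i : ℕ) * d) := by
  unfold chi
  simp only [Bool.false_eq_true, if_false]
  exact pat_val k d n i

lemma chi_true {k : ℕ} (i : Fin (k + 1)) (d n : ℕ) :
    chi (true, i) (pat k d n) = lf (n + 0 * d) * lf (n + (i : ℕ) * d) := by
  unfold chi
  simp only [if_true]
  rw [pat_val, pat_val]
  simp

lemma mixed {k : ℕ} (i j : Fin (k + 1)) :
    Sm (fun x d => ∑ n ∈ Icc 1 x, chi (false, i) (pat k d n) * chi (true, j) (pat k d n)) := by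
  simp only [chi_false, chi_true]
  by_cases hij : (i : ℕ) = j
  · have h := one 0
    have e : (fun x d : ℕ => ∑ n ∈ Icc 1 x, lf (n + (i : ℕ) * d) * (lf (n + 0 * d) * lf (n + (j : ℕ) * d))) =
        fun x d => ∑ n ∈ Icc 1 x, lf (n + 0 * d) := by
      funext x d
      refine sum_congr rfl fun n _ => ?_
      rw [hij]
      calc _ = lf (n + 0 * d) * (lf (n + (j : ℕ) * d) * lf (n + (j : ℕ) * d)) := by ring
        _ = _ := by rw [lf_sq, mul_one]
    rw [e]
    exact h
  by_cases hi : (i : ℕ) = 0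
  · have h := one j
    have e : (fun x d : ℕ => ∑ n ∈ Icc 1 x, lf (n + (i : ℕ) * d) * (lf (n + 0 * d) * lf (n + (j : ℕ) * d))) =
        fun x d => ∑ n ∈ Icc 1 x, lf (n + (j : ℕ) * d) := by
      funext x d
      refine sum_congr rfl fun n _ => ?_
      rw [hi]
      calc _ = lf (n + 0 * d) * lf (n + 0 * d) * lf (n + (j : ℕ) * d) := by ring
        _ = _ := by rw [lf_sq, one_mul]
    rw [e]
    exact h
  by_cases hj : (j : ℕ) = 0
  · have h := one i
    have e : (fun x d : ℕ => ∑ n ∈ Icc 1 x, lf (n + (i : ℕ) * d) * (lf (n + 0 * d) * lf (n + (j : ℕ) * d))) =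
        fun x d => ∑ n ∈ Icc 1 x, lf (n + (i : ℕ) * d) := by
      funext x d
      refine sum_congr rfl fun n _ => ?_
      rw [hj]
      rw [lf_sq, mul_one]
    rw [e]
    exact h
  · have h := three i 0 j hi (fun h => hj h.symm) hij
    have e : (fun x d : ℕ => ∑ n ∈ Icc 1 x, lf (n + (i : ℕ) * d) * (lf (n + 0 * d) * lf (n + (j : ℕ) * d))) =
        fun x d => ∑ n ∈ Icc 1 x, lf (n + (i : ℕ) * d) * lf (n + 0 * d) * lf (n + (j : ℕ) * d) := by
      funext x d
      refine sum_congr rfl fun n _ => ?_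
      ring
    rw [e]
    exact h

lemma gram {k : ℕ} (a b : Bool × Fin (k + 1)) (hab : a ≠ b) :
    Sm (fun x d => ∑ n ∈ Icc 1 x, chi a (pat k d n) * chi b (pat k d n)) := by
  obtain ⟨c, i⟩ := a
  obtain ⟨c', j⟩ := b
  cases c <;> cases c'
  · have hij : (i : ℕ) ≠ j := fun h => hab (by rw [Fin.ext h])
    simp only [chi_false]
    exact two i j hij
  · exact mixed i j
  · have h := mixed (k := k) j i
    have e : (fun x d : ℕ => ∑ n ∈ Icc 1 x, chi (true, i) (pat k d n) * chi (false, j) (pat k d n)) =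
        fun x d => ∑ n ∈ Icc 1 x, chi (false, j) (pat k d n) * chi (true, i) (pat k d n) := by
      funext x d
      exact sum_congr rfl fun n _ => mul_comm _ _
    rw [e]
    exact h
  · have hij : (i : ℕ) ≠ j := fun h => hab (by rw [Fin.ext h])
    simp only [chi_true]
    have e : (fun x d : ℕ => ∑ n ∈ Icc 1 x, lf (n + 0 * d) * lf (n + (i : ℕ) * d) *
        (lf (n + 0 * d) * lf (n + (j : ℕ) * d))) =
        fun x d => ∑ n ∈ Icc 1 x, lf (n + (i : ℕ) * d) * lf (n + (j : ℕ) * d) := by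
      funext x d
      refine sum_congr rfl fun n _ => ?_
      calc _ = (lf (n + 0 * d) * lf (n + 0 * d)) * (lf (n + (i : ℕ) * d) * lf (n + (j : ℕ) * d)) := by ring
        _ = _ := by rw [lf_sq, one_mul]
    rw [e]
    exact two i j hij

/-- at least `2 (k + 1)` patterns of length `k + 1` along almost all dilates -/
theorem patterns (k : ℕ) (ε : ℝ) (hε : 0 < ε) :
    ∃ K : ℕ, 0 < K ∧ ∀ D x : ℕ, K ≤ D → K * D ≤ x →
      (((Icc 1 D).filter (fun d => (univ.filter (fun s : Fin (k + 1) → ℤˣ =>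
        1 / (4 * (k + 1) * 2 ^ (k + 1)) * (x : ℝ) ≤ (((Icc 1 x).filter (fun n => pat k d n = s)).card : ℝ))).card <
          2 * (k + 1))).card : ℝ) ≤ ε * D := by
  classical
  set P : Finset ((Bool × Fin (k + 1)) × (Bool × Fin (k + 1))) := univ.offDiag with hP
  have hex : ∀ p ∈ P, ∃ K : ℕ, 0 < K ∧ ∀ D x : ℕ, K ≤ D → K * D ≤ x →
      ∑ d ∈ Icc 1 D, |∑ n ∈ Icc 1 x, chi p.1 (pat k d n) * chi p.2 (pat k d n)| ≤
        ε / (4 * (P.card + 1)) * (x * D) := by
    intro p hp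
    rw [hP, mem_offDiag] at hp
    exact gram p.1 p.2 hp.2.2 (ε / (4 * (P.card + 1))) (by positivity)
  choose! KK hK0 hKK using hex
  refine ⟨∑ p ∈ P, KK p + 1, by omega, fun D x hD hx => ?_⟩
  have hKle : ∀ p ∈ P, KK p ≤ ∑ p ∈ P, KK p + 1 := fun p hp =>
    (single_le_sum (f := KK) (fun _ _ => Nat.zero_le _) hp).trans (Nat.le_succ _)
  have hx0 : 0 < x := by
    have h1 : 0 < D := by omega
    have h2 : 0 < (∑ p ∈ P, KK p + 1) * D := Nat.mul_pos (by omega) h1
    omega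
  have hxr : (0 : ℝ) < x := by exact_mod_cast hx0
  set Bad : Finset ℕ := (Icc 1 D).filter (fun d => (univ.filter (fun s : Fin (k + 1) → ℤˣ =>
        1 / (4 * (k + 1) * 2 ^ (k + 1)) * (x : ℝ) ≤ (((Icc 1 x).filter (fun n => pat k d n = s)).card : ℝ))).card <
          2 * (k + 1)) with hBad
  have hbad : ∀ d ∈ Bad, (x : ℝ) / 4 ≤
      ∑ p ∈ P, |∑ n ∈ Icc 1 x, chi p.1 (pat k d n) * chi p.2 (pat k d n)| := by
    intro d hd
    by_contra hlt
    push Not at hlt
    rw [hBad, mem_filter] at hd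
    have h1 := many_patterns (A := Bool × Fin (k + 1)) (S := Fin (k + 1) → ℤˣ) chi (fun a s => chi_sq a s) x hx0
      (pat k d) (1 / (4 * (k + 1) * 2 ^ (k + 1))) (by positivity) (by
        rw [Fintype.card_prod, Fintype.card_bool, Fintype.card_fin, Fintype.card_fun, Fintype.card_fin,
          Fintype.card_units_int]
        push_cast
        have : (0 : ℝ) < 2 ^ (k + 1) := by positivity
        field_simp
        norm_num) hlt.le
    rw [Fintype.card_prod, Fintype.card_bool, Fintype.card_fin] at h1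
    have h2 := hd.2
    omega
  have htot : (Bad.card : ℝ) * (x / 4) ≤ ε / 4 * (x * D) := by
    calc (Bad.card : ℝ) * (x / 4) = ∑ d ∈ Bad, (x : ℝ) / 4 := by rw [sum_const, nsmul_eq_mul]
      _ ≤ ∑ d ∈ Bad, ∑ p ∈ P, |∑ n ∈ Icc 1 x, chi p.1 (pat k d n) * chi p.2 (pat k d n)| := sum_le_sum hbad
      _ ≤ ∑ d ∈ Icc 1 D, ∑ p ∈ P, |∑ n ∈ Icc 1 x, chi p.1 (pat k d n) * chi p.2 (pat k d n)| := by
          refine sum_le_sum_of_subset_of_nonneg (filter_subset _ _) fun d _ _ =>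
            sum_nonneg fun p _ => abs_nonneg _
      _ = ∑ p ∈ P, ∑ d ∈ Icc 1 D, |∑ n ∈ Icc 1 x, chi p.1 (pat k d n) * chi p.2 (pat k d n)| := sum_comm
      _ ≤ ∑ _p ∈ P, ε / (4 * (P.card + 1)) * (x * D) := by
          refine sum_le_sum fun p hp => hKK p hp D x ((hKle p hp).trans hD)
            ((Nat.mul_le_mul_right _ (hKle p hp)).trans hx)
      _ = (P.card : ℝ) * (ε / (4 * (P.card + 1)) * (x * D)) := by rw [sum_const, nsmul_eq_mul]
      _ ≤ ε / 4 * (x * D) := by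
          have h1 : (P.card : ℝ) * (ε / (4 * (P.card + 1))) ≤ ε / 4 := by
            have h2 : (0 : ℝ) ≤ P.card := Nat.cast_nonneg _
            rw [mul_div_assoc', div_le_div_iff₀ (by positivity) (by norm_num)]
            nlinarith
          have h3 : (0 : ℝ) ≤ x * D := by positivity
          calc (P.card : ℝ) * (ε / (4 * (P.card + 1)) * (x * D)) =
              (P.card : ℝ) * (ε / (4 * (P.card + 1))) * (x * D) := by ring
            _ ≤ _ := mul_le_mul_of_nonneg_right h1 h3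
  have h9 : (x : ℝ) * Bad.card ≤ x * (ε * D) := by
    have e1 : (Bad.card : ℝ) * (x / 4) = x * Bad.card / 4 := by ring
    have e2 : ε / 4 * (x * D) = x * (ε * D) / 4 := by ring
    rw [e1, e2] at htot
    linarith
  exact le_of_mul_le_mul_left h9 hxr

end Pool.Agent.N790.LP
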